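import Pool.Agent.helper3.SG.SpecS

set_option autoImplicit false

open MeasureTheory Set Metric Filter Topology
open scoped ENNReal NNReal ComplexConjugate

namespace Pool.Agent.SG

theorem S21_A (t X Y m U V W c c1 c2 c3 l2 l3 l5 : ℝ) (h1 : 0 ≤ c1) (h2 : 0 ≤ c2) (h3 : 0 ≤ c3)
    (hs : c1 + c2 + c3 = 1) (e1 : c1 * t = c) (e2 : c2 * (X - t) = c) (e3 : c3 * (Y - t) = c)
    (hc : m / 3 ≤ c) (hU : W - l3 ≤ U) (hV : W - l5 ≤ V) (hW : W ≤ l2)
    (hl2 : l2 ≤ l5) (hl3 : l3 ≤ l5) (hl5 : 2 * l5 ≤ 5) :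
    2 * W + t + m / 3 - 5 ≤ c2 * (2 * U + X) + c3 * (2 * V + Y) := by
  have a1 := mul_le_mul_of_nonneg_left hU h2
  have a2 := mul_le_mul_of_nonneg_left hV h3
  have a3 := mul_le_mul_of_nonneg_left hW h1
  have a4 := mul_le_mul_of_nonneg_left hl3 h2
  have a5 := mul_le_mul_of_nonneg_left hl2 h1
  have b1 : t = c1 * t + c2 * t + c3 * t := by rw [← add_mul, ← add_mul, hs, one_mul]
  have b2 : W = c1 * W + c2 * W + c3 * W := by rw [← add_mul, ← add_mul, hs, one_mul]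
  have b3 : l5 = c1 * l5 + c2 * l5 + c3 * l5 := by rw [← add_mul, ← add_mul, hs, one_mul]
  linarith

theorem S21_B (t X Y m U V W c c1 c2 c3 l2 l3 : ℝ) (h1 : 0 ≤ c1) (h2 : 0 ≤ c2) (h3 : 0 ≤ c3)
    (hs : c1 + c2 + c3 = 1) (e1 : c1 * t = c) (e2 : c2 * (X - t) = c) (e3 : c3 * (Y - t) = c)
    (hc : m / 3 ≤ c) (hU : - X - l2 ≤ U) (hV : - t - l2 ≤ V) (hW : W ≤ l3 - l2 - t)
    (hl2 : 0 ≤ l2) (hl3 : 2 * l3 ≤ 5) :
    2 * W + t + m / 3 - 5 ≤ c2 * (2 * U + X) + c3 * (2 * V + Y) := by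
  have a1 := mul_le_mul_of_nonneg_left hU h2
  have a2 := mul_le_mul_of_nonneg_left hV h3
  have a3 : 0 ≤ c1 * l2 := mul_nonneg h1 hl2
  have b1 : t = c1 * t + c2 * t + c3 * t := by rw [← add_mul, ← add_mul, hs, one_mul]
  have b3 : l2 = c1 * l2 + c2 * l2 + c3 * l2 := by rw [← add_mul, ← add_mul, hs, one_mul]
  linarith

theorem S21_r1 (r s : ℝ) (h0 : 0 ≤ r) (h1 : r < 1) (h : 1 - r ≤ s) : (1 - r ^ 2) / 2 ≤ s := by
  nlinarith

theorem S21_r2 (r : ℝ) (h0 : 0 ≤ r) (h1 : r < 1) : 0 < 1 - r ^ 2 := by nlinarith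

theorem S21_r3 (r s : ℝ) (h0 : 0 ≤ r) (h1 : r < 1) (h2 : 0 ≤ s) (h3 : s < 1) : r * s < 1 := by
  nlinarith

theorem S21_r4 (e : ℝ) (h0 : 0 < e) (h1 : e < 1) : e ≤ 1 - (1 - e) ^ 2 := by nlinarith

theorem S21_r5 (r e : ℝ) (h0 : 0 ≤ r) (h1 : r < 1) (h : 1 - r ^ 2 ≤ e) : 1 - e ≤ r := by nlinarith

theorem S21_r6 (r s : ℝ) (h1 : r < 1) (h2 : 0 ≤ s) : r * s ≤ s := by nlinarith

theorem S21 : S21_stmt := by
  intro x y m hx hy hm h1 h2 h3
  set ε : ℝ := ‖1 - conj x * y‖ with hε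
  have hxy : ‖conj x * y‖ < 1 := by
    rw [norm_mul, RCLike.norm_conj]
    exact S21_r3 _ _ (norm_nonneg x) hx (norm_nonneg y) hy
  have hε0 : 0 < ε := by
    have := norm_sub_norm_le (1 : ℂ) (conj x * y)
    rw [norm_one] at this
    linarith
  have hεe : ε = Real.exp (Real.log ε) := (Real.exp_log hε0).symm
  have hε1 : ε < 1 := by
    by_contra h
    push Not at h
    have := Real.log_nonneg h
    linarith
  have hx2 : 0 < 1 - ‖x‖ ^ 2 := S21_r2 _ (norm_nonneg x) hx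
  have hy2 : 0 < 1 - ‖y‖ ^ 2 := S21_r2 _ (norm_nonneg y) hy
  set t : ℝ := -Real.log ε with ht
  set X : ℝ := -Real.log (1 - ‖x‖ ^ 2) with hX
  set Y : ℝ := -Real.log (1 - ‖y‖ ^ 2) with hY
  have hXt : m ≤ X - t := by linarith
  have hYt : m ≤ Y - t := by linarith
  have hxe : 1 - ‖x‖ ^ 2 ≤ ε := by
    have : Real.log (1 - ‖x‖ ^ 2) ≤ Real.log ε := by linarith
    exact (Real.log_le_log_iff hx2 hε0).1 this
  have hx0 : x ≠ 0 := by
    rintro rfl
    simp at hxe
    linarith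
  have hxn : 0 < ‖x‖ := norm_pos_iff.2 hx0
  -- the weights
  have ht0 : 0 < t := by linarith
  have hX0 : 0 < X - t := by linarith
  have hY0 : 0 < Y - t := by linarith
  set D : ℝ := 1 / t + 1 / (X - t) + 1 / (Y - t) with hD
  have hD0 : 0 < D := by positivity
  set c : ℝ := 1 / D with hc
  have hc0 : 0 < c := by positivity
  have hDm : D ≤ 3 / m := by
    have a1 : 1 / t ≤ 1 / m := one_div_le_one_div_of_le hm h1
    have a2 : 1 / (X - t) ≤ 1 / m := one_div_le_one_div_of_le hm hXt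
    have a3 : 1 / (Y - t) ≤ 1 / m := one_div_le_one_div_of_le hm hYt
    have : (3 : ℝ) / m = 1 / m + 1 / m + 1 / m := by ring
    linarith
  have hcm : m / 3 ≤ c := by
    rw [hc, le_div_iff₀ hD0]
    calc m / 3 * D ≤ m / 3 * (3 / m) := mul_le_mul_of_nonneg_left hDm (by positivity)
      _ = 1 := by field_simp
  have e1 : c / t * t = c := by field_simp
  have e2 : c / (X - t) * (X - t) = c := by field_simp
  have e3 : c / (Y - t) * (Y - t) = c := by field_simp
  have hs : c / t + c / (X - t) + c / (Y - t) = 1 := by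
    have : c / t + c / (X - t) + c / (Y - t) = c * D := by rw [hD]; ring
    rw [this, hc]; field_simp
  have hc1 : 0 ≤ c / t := by positivity
  have hc2 : 0 ≤ c / (X - t) := by positivity
  have hc3 : 0 ≤ c / (Y - t) := by positivity
  -- the point
  set z : ℂ := (((1 - ε) / ‖x‖ : ℝ) : ℂ) * x with hz
  have hzn : ‖z‖ = 1 - ε := by
    rw [hz, norm_mul, Complex.norm_real, Real.norm_eq_abs, abs_of_nonneg (by
      apply div_nonneg <;> linarith)]
    field_simp
  have hz2 : ε ≤ 1 - ‖z‖ ^ 2 := by rw [hzn]; exact S21_r4 _ hε0 hε1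
  have hxz : ‖x - z‖ ≤ ε := by
    have : x - z = ((1 - (1 - ε) / ‖x‖ : ℝ) : ℂ) * x := by
      rw [hz]; push_cast; ring
    rw [this, norm_mul, Complex.norm_real, Real.norm_eq_abs]
    have h4 : 1 - ε ≤ ‖x‖ := S21_r5 _ _ (norm_nonneg x) hx hxe
    have h5 : 0 ≤ 1 - (1 - ε) / ‖x‖ := by
      rw [sub_nonneg, div_le_one hxn]; exact h4
    rw [abs_of_nonneg h5]
    have : (1 - (1 - ε) / ‖x‖) * ‖x‖ = ‖x‖ - (1 - ε) := by field_simp
    rw [this]; linarith
  have hxyε : ‖x - y‖ ≤ ε := by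
    have key : ε ^ 2 - ‖x - y‖ ^ 2 = (1 - ‖x‖ ^ 2) * (1 - ‖y‖ ^ 2) := by
      rw [hε, ← Complex.normSq_eq_norm_sq, ← Complex.normSq_eq_norm_sq, ← Complex.normSq_eq_norm_sq,
        ← Complex.normSq_eq_norm_sq]
      simp only [Complex.normSq_apply, Complex.sub_re, Complex.sub_im, Complex.mul_re,
        Complex.mul_im, Complex.conj_re, Complex.conj_im, Complex.one_re, Complex.one_im]
      ring
    have : ‖x - y‖ ^ 2 ≤ ε ^ 2 := by
      have := mul_pos hx2 hy2
      rw [← key] at this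
      exact (sub_pos.1 this).le
    exact (sq_le_sq₀ (norm_nonneg _) hε0.le).1 this
  have hl5 : 2 * Real.log 5 ≤ 5 := by
    have a : Real.log 5 ≤ 5 / 2 := by
      rw [Real.log_le_iff_le_exp (by norm_num)]
      have b := Real.add_one_le_exp (1 : ℝ)
      have d : Real.exp (5 / 2) = Real.exp (1 / 2) ^ 5 := by
        rw [← Real.exp_nat_mul]; norm_num
      have e := Real.add_one_le_exp (1 / 2 : ℝ)
      rw [d]
      calc (5 : ℝ) ≤ (1 / 2 + 1) ^ 5 := by norm_num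
        _ ≤ _ := pow_le_pow_left₀ (by norm_num) e 5
    linarith
  have hl2 : (0 : ℝ) ≤ Real.log 2 := Real.log_nonneg (by norm_num)
  have hl25 : Real.log 2 ≤ Real.log 5 := Real.log_le_log (by norm_num) (by norm_num)
  have hl35 : Real.log 3 ≤ Real.log 5 := Real.log_le_log (by norm_num) (by norm_num)
  refine ⟨z, c / (X - t), c / (Y - t), by rw [hzn]; linarith, hc2, hc3, by linarith, ?_⟩
  intro ξ hξ
  have hu : 1 - ‖x‖ ≤ ‖ξ - x‖ := by
    have := norm_sub_norm_le ξ x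
    rwa [hξ] at this
  have hv : 1 - ‖y‖ ≤ ‖ξ - y‖ := by
    have := norm_sub_norm_le ξ y
    rwa [hξ] at this
  have hw : ε ≤ ‖ξ - z‖ := by
    have := norm_sub_norm_le ξ z
    rw [hξ, hzn] at this
    linarith
  have hu0 : 0 < ‖ξ - x‖ := by linarith
  have hv0 : 0 < ‖ξ - y‖ := by linarith
  have hw0 : 0 < ‖ξ - z‖ := by linarith
  have hw1 : ‖ξ - z‖ ≤ ‖ξ - x‖ + ε := by
    have : ξ - z = (ξ - x) + (x - z) := by ring
    rw [this]
    exact (norm_add_le _ _).trans (by linarith)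
  have hw2 : ‖ξ - z‖ ≤ ‖ξ - y‖ + 2 * ε := by
    have : ξ - z = (ξ - y) - (x - y) + (x - z) := by ring
    rw [this]
    refine (norm_add_le _ _).trans ?_
    have := norm_sub_le (ξ - y) (x - y)
    linarith
  have hw3 : ‖ξ - z‖ ≤ 2 := by
    refine (norm_sub_le _ _).trans ?_
    rw [hξ, hzn]; linarith
  have huv : ε ≤ ‖ξ - x‖ + ‖ξ - y‖ := by
    have hcx : conj ξ * ξ = 1 := by
      rw [← Complex.normSq_eq_conj_mul_self, Complex.normSq_eq_norm_sq, hξ]; norm_num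
    have : 1 - conj x * y = ξ * conj (ξ - x) + conj x * (ξ - y) := by
      rw [map_sub]
      have : (1 : ℂ) = conj ξ * ξ := hcx.symm
      rw [this]; ring
    rw [hε, this]
    refine (norm_add_le _ _).trans ?_
    rw [norm_mul, norm_mul, RCLike.norm_conj, RCLike.norm_conj, hξ, one_mul]
    exact add_le_add le_rfl (S21_r6 _ _ hx (norm_nonneg _))
  have bx : bus ξ x = 2 * Real.log ‖ξ - x‖ + X := by
    unfold bus
    rw [Real.log_div (by positivity) hx2.ne', Real.log_pow]; push_cast; ring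
  have byy : bus ξ y = 2 * Real.log ‖ξ - y‖ + Y := by
    unfold bus
    rw [Real.log_div (by positivity) hy2.ne', Real.log_pow]; push_cast; ring
  have bz : bus ξ z ≤ 2 * Real.log ‖ξ - z‖ + t := by
    unfold bus
    rw [Real.log_div (by positivity) (by linarith), Real.log_pow]
    have := Real.log_le_log hε0 hz2
    push_cast; linarith
  have hUX : - X - Real.log 2 ≤ Real.log ‖ξ - x‖ := by
    have a : (1 - ‖x‖ ^ 2) / 2 ≤ ‖ξ - x‖ := S21_r1 _ _ (norm_nonneg x) hx hu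
    have b := Real.log_le_log (by positivity) a
    rw [Real.log_div hx2.ne' (by norm_num)] at b
    linarith
  have hVY : - Y - Real.log 2 ≤ Real.log ‖ξ - y‖ := by
    have a : (1 - ‖y‖ ^ 2) / 2 ≤ ‖ξ - y‖ := S21_r1 _ _ (norm_nonneg y) hy hv
    have b := Real.log_le_log (by positivity) a
    rw [Real.log_div hy2.ne' (by norm_num)] at b
    linarith
  rw [bx, byy]
  suffices h : 2 * Real.log ‖ξ - z‖ + t + m / 3 - 5 ≤ c / (X - t) * (2 * Real.log ‖ξ - x‖ + X) +
      c / (Y - t) * (2 * Real.log ‖ξ - y‖ + Y) by linarith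
  by_cases hA : ‖ξ - x‖ < ε / 2
  · -- case B
    have hv' : ε / 2 ≤ ‖ξ - y‖ := by linarith
    have hV := Real.log_le_log (by positivity) hv'
    rw [Real.log_div hε0.ne' (by norm_num)] at hV
    have hw' : ‖ξ - z‖ ≤ 3 * ε / 2 := by linarith
    have hW := Real.log_le_log hw0 hw'
    rw [Real.log_div (by positivity) (by norm_num), Real.log_mul (by norm_num) hε0.ne'] at hW
    exact S21_B t X Y m _ _ _ c (c / t) (c / (X - t)) (c / (Y - t)) (Real.log 2) (Real.log 3)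
      hc1 hc2 hc3 hs e1 e2 e3 hcm hUX (by linarith) (by linarith) hl2 (by linarith)
  · by_cases hB : ‖ξ - y‖ < ε / 2
    · push Not at hA
      have hU := Real.log_le_log (by positivity) hA
      rw [Real.log_div hε0.ne' (by norm_num)] at hU
      have hw' : ‖ξ - z‖ ≤ 5 * ε / 2 := by linarith
      have hW := Real.log_le_log hw0 hw'
      rw [Real.log_div (by positivity) (by norm_num), Real.log_mul (by norm_num) hε0.ne'] at hW
      have := S21_B t Y X m (Real.log ‖ξ - y‖) (Real.log ‖ξ - x‖) (Real.log ‖ξ - z‖) c (c / t)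
        (c / (Y - t)) (c / (X - t)) (Real.log 2) (Real.log 5)
        hc1 hc3 hc2 (by linarith) e1 e3 e2 hcm hVY (by linarith) (by linarith) hl2 (by linarith)
      linarith
    · push Not at hA hB
      have hw' : ‖ξ - z‖ ≤ 3 * ‖ξ - x‖ := by linarith
      have hU := Real.log_le_log hw0 hw'
      rw [Real.log_mul (by norm_num) hu0.ne'] at hU
      have hw'' : ‖ξ - z‖ ≤ 5 * ‖ξ - y‖ := by linarith
      have hV := Real.log_le_log hw0 hw''
      rw [Real.log_mul (by norm_num) hv0.ne'] at hV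
      have hW := Real.log_le_log hw0 hw3
      exact S21_A t X Y m _ _ _ c (c / t) (c / (X - t)) (c / (Y - t)) (Real.log 2) (Real.log 3)
        (Real.log 5) hc1 hc2 hc3 hs e1 e2 e3 hcm (by linarith) (by linarith) hW hl25 hl35 hl5

end Pool.Agent.SG
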